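import Pool.Agent.H987.Y.StC

/-! M1 (moments of the hopping), project Y of helper987; by helper582. -/

set_option autoImplicit false
set_option linter.unusedSectionVars false

open scoped BigOperators Topology
open Filter

namespace Pool.Agent.H582.Y987

open Pool.Agent.H987.Y

/-- subadditivity of `t ↦ t ^ p`, `0 < p ≤ 1`, for finite sums -/
theorem rpow_fsum_le {α : Type*} (f : α → ℝ) (p : ℝ) (hp : 0 < p) (hp1 : p ≤ 1)
    (hf : ∀ i, 0 ≤ f i) (S : Finset α) : (∑ i ∈ S, f i) ^ p ≤ ∑ i ∈ S, f i ^ p := by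
  classical
  induction S using Finset.induction_on with
  | empty => simp [Real.zero_rpow hp.ne']
  | insert a S ha ih =>
    rw [Finset.sum_insert ha, Finset.sum_insert ha]
    exact (Real.rpow_add_le_add_rpow (hf a) (Finset.sum_nonneg fun i _ => hf i) hp.le hp1).trans
      (add_le_add le_rfl ih)

/-- subadditivity of `t ↦ t ^ p`, `0 < p ≤ 1`, for series -/
theorem rpow_tsum_le (f : ℕ → ℝ) (p : ℝ) (hp : 0 < p) (hp1 : p ≤ 1) (hf : ∀ i, 0 ≤ f i)
    (hs : Summable f) (hs' : Summable fun i => f i ^ p) : (∑' i, f i) ^ p ≤ ∑' i, f i ^ p := by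
  have h1 : Tendsto (fun m => (∑ i ∈ Finset.range m, f i) ^ p) atTop (𝓝 ((∑' i, f i) ^ p)) :=
    (hs.hasSum.tendsto_sum_nat).rpow_const (Or.inr hp.le)
  refine le_of_tendsto h1 (Eventually.of_forall fun m => ?_)
  exact (rpow_fsum_le f p hp hp1 hf _).trans
    (hs'.sum_le_tsum _ fun i _ => Real.rpow_nonneg (hf i) p)

section gen

variable {Y : Type} (c : ℕ → Y → ℝ) (B : ℕ → ℝ)

/-- the pairs are summable -/
theorem pair_sum (hc0 : ∀ k y, 0 ≤ c k y) (hc : ∀ k, HasSum (c k) (B k)) (a : ℕ → ℝ)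
    (ha : ∀ n, 0 ≤ a n) (hs : Summable fun n => a n * B n) :
    Summable (fun q : ℕ × Y => a q.1 * c q.1 q.2) := by
  rw [summable_prod_of_nonneg fun q => mul_nonneg (ha q.1) (hc0 q.1 q.2)]
  refine ⟨fun n => ((hc n).summable.mul_left (a n)), ?_⟩
  refine hs.congr fun n => ?_
  show a n * B n = ∑' y : Y, a n * c n y
  rw [tsum_mul_left, (hc n).tsum_eq]

theorem c_le (hc0 : ∀ k y, 0 ≤ c k y) (hc : ∀ k, HasSum (c k) (B k)) (k : ℕ) (y : Y) :
    c k y ≤ B k := le_hasSum (hc k) y fun z _ => hc0 k z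

theorem sum_n (hc0 : ∀ k y, 0 ≤ c k y) (hc : ∀ k, HasSum (c k) (B k)) (a : ℕ → ℝ)
    (ha : ∀ n, 0 ≤ a n) (hs : Summable fun n => a n * B n) (y : Y) :
    Summable (fun n => a n * c n y) :=
  Summable.of_nonneg_of_le (fun n => mul_nonneg (ha n) (hc0 n y))
    (fun n => mul_le_mul_of_nonneg_left (c_le c B hc0 hc n y) (ha n)) hs

/-- the sum of the series is the series of the sums -/
theorem swap_sum (hc0 : ∀ k y, 0 ≤ c k y) (hc : ∀ k, HasSum (c k) (B k)) (a : ℕ → ℝ)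
    (ha : ∀ n, 0 ≤ a n) (hs : Summable fun n => a n * B n) :
    HasSum (fun y : Y => ∑' n, a n * c n y) (∑' n, a n * B n) := by
  have h := pair_sum c B hc0 hc a ha hs
  have h1 : Summable (fun q : Y × ℕ => a q.2 * c q.2 q.1) := h.prod_symm
  have h2 : HasSum (fun y : Y => ∑' n, a n * c n y) (∑' q : Y × ℕ, a q.2 * c q.2 q.1) :=
    h1.hasSum.prod_fiberwise fun y => (sum_n c B hc0 hc a ha hs y).hasSum
  have h3 : HasSum (fun n : ℕ => ∑' y, a n * c n y) (∑' q : ℕ × Y, a q.1 * c q.1 q.2) :=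
    h.hasSum.prod_fiberwise fun n => ((hc n).summable.mul_left (a n)).hasSum
  have h4 : (∑' q : Y × ℕ, a q.2 * c q.2 q.1) = ∑' q : ℕ × Y, a q.1 * c q.1 q.2 :=
    (Equiv.prodComm Y ℕ).tsum_eq (fun q : ℕ × Y => a q.1 * c q.1 q.2)
  have h5 : (∑' n, a n * B n) = ∑' q : ℕ × Y, a q.1 * c q.1 q.2 := by
    rw [← h3.tsum_eq]
    refine tsum_congr fun n => ?_
    rw [tsum_mul_left, (hc n).tsum_eq]
  rw [h5, ← h4]
  exact h2

/-- small powers -/
theorem pow_small (hc0 : ∀ k y, 0 ≤ c k y) (hc : ∀ k, HasSum (c k) (B k))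
    (hc1 : ∀ k y, c k y = 0 ∨ 1 ≤ c k y) (a : ℕ → ℝ)
    (ha : ∀ n, 0 ≤ a n) (hs : Summable fun n => a n * B n) (p : ℝ) (hp0 : 0 < p) (hp1 : p ≤ 1)
    (hp : Summable fun n => a n ^ p * B n) :
    (Summable fun y => (∑' n, a n * c n y) ^ p) ∧
      ∑' y, (∑' n, a n * c n y) ^ p ≤ ∑' n, a n ^ p * B n := by
  have h2 := swap_sum c B hc0 hc (fun n => a n ^ p) (fun n => Real.rpow_nonneg (ha n) p) hp
  have key : ∀ y, (∑' n, a n * c n y) ^ p ≤ ∑' n, a n ^ p * c n y := by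
    intro y
    have h3 := sum_n c B hc0 hc (fun n => a n ^ p) (fun n => Real.rpow_nonneg (ha n) p) hp y
    have h4 : ∀ n, (a n * c n y) ^ p ≤ a n ^ p * c n y := fun n => by
      rw [Real.mul_rpow (ha n) (hc0 n y)]
      refine mul_le_mul_of_nonneg_left ?_ (Real.rpow_nonneg (ha n) p)
      rcases hc1 n y with h | h
      · rw [h, Real.zero_rpow hp0.ne']
      · calc c n y ^ p ≤ c n y ^ (1 : ℝ) := Real.rpow_le_rpow_of_exponent_le h hp1
          _ = c n y := Real.rpow_one _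
    have h5 : Summable fun n => (a n * c n y) ^ p :=
      Summable.of_nonneg_of_le
        (fun n => Real.rpow_nonneg (mul_nonneg (ha n) (hc0 n y)) p) h4 h3
    exact (rpow_tsum_le _ p hp0 hp1 (fun n => mul_nonneg (ha n) (hc0 n y))
      (sum_n c B hc0 hc a ha hs y) h5).trans (h5.tsum_le_tsum h4 h3)
  have hnn : ∀ y, 0 ≤ ∑' n, a n * c n y := fun y =>
    tsum_nonneg fun n => mul_nonneg (ha n) (hc0 n y)
  have hs1 : Summable fun y => (∑' n, a n * c n y) ^ p :=
    Summable.of_nonneg_of_le (fun y => Real.rpow_nonneg (hnn y) p) key h2.summable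
  exact ⟨hs1, (hs1.tsum_le_tsum key h2.summable).trans h2.tsum_eq.le⟩

/-- large powers -/
theorem pow_large (hc0 : ∀ k y, 0 ≤ c k y) (hc : ∀ k, HasSum (c k) (B k)) (a : ℕ → ℝ)
    (ha : ∀ n, 0 ≤ a n) (hs : Summable fun n => a n * B n) (p : ℝ) (hp1 : 1 ≤ p) :
    (Summable fun y => (∑' n, a n * c n y) ^ p) ∧
      ∑' y, (∑' n, a n * c n y) ^ p ≤ (∑' n, a n * B n) ^ (p - 1) * ∑' n, a n * B n := by
  have h2 := swap_sum c B hc0 hc a ha hs
  have hnn : ∀ y, 0 ≤ ∑' n, a n * c n y := fun y =>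
    tsum_nonneg fun n => mul_nonneg (ha n) (hc0 n y)
  have hB : ∀ y, ∑' n, a n * c n y ≤ ∑' n, a n * B n := fun y => le_hasSum h2 y fun z _ => hnn z
  have hp0 : p ≠ 0 := by linarith
  have key : ∀ y, (∑' n, a n * c n y) ^ p ≤
      (∑' n, a n * B n) ^ (p - 1) * ∑' n, a n * c n y := by
    intro y
    rcases eq_or_lt_of_le (hnn y) with h | h
    · rw [← h, Real.zero_rpow hp0, mul_zero]
    · calc (∑' n, a n * c n y) ^ p
          = (∑' n, a n * c n y) ^ (p - 1) * ∑' n, a n * c n y := by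
            rw [← Real.rpow_add_one h.ne']
            congr 1
            ring
        _ ≤ _ := mul_le_mul_of_nonneg_right
            (Real.rpow_le_rpow (hnn y) (hB y) (by linarith)) (hnn y)
  have h3 : Summable fun y => (∑' n, a n * B n) ^ (p - 1) * ∑' n, a n * c n y :=
    h2.summable.mul_left _
  have hs1 : Summable fun y => (∑' n, a n * c n y) ^ p :=
    Summable.of_nonneg_of_le (fun y => Real.rpow_nonneg (hnn y) p) key h3
  refine ⟨hs1, (hs1.tsum_le_tsum key h3).trans (le_of_eq ?_)⟩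
  rw [tsum_mul_left, h2.tsum_eq]

end gen

variable {d : ℕ}

theorem ks_nonneg {n : ℕ} (σ : Fin (n + 1) → Lt d → Lt d) (x y : Lt d) : 0 ≤ kσ σ x y := by
  classical
  unfold kσ
  exact Finset.sum_nonneg fun j _ => by split_ifs <;> norm_num

theorem ks_int {n : ℕ} (σ : Fin (n + 1) → Lt d → Lt d) (x y : Lt d) :
    kσ σ x y = 0 ∨ 1 ≤ kσ σ x y := by
  classical
  have e : kσ σ x y = ((Finset.univ.filter fun j => y = σ j x).card : ℝ) := by
    unfold kσ
    rw [Finset.card_filter]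
    push_cast
    exact Finset.sum_congr rfl fun j _ => by congr
  rw [e]
  rcases Nat.eq_zero_or_pos (Finset.univ.filter fun j => y = σ j x).card with h | h
  · left
    rw [h, Nat.cast_zero]
  · right
    exact_mod_cast h

theorem ks_hasSum {n : ℕ} (σ : Fin (n + 1) → Lt d → Lt d) (x v : Lt d) :
    HasSum (fun y => kσ σ x (y + v)) ((n : ℝ) + 1) := by
  classical
  have h : HasSum (fun y => ∑ j : Fin (n + 1), if y = σ j x - v then (1 : ℝ) else 0)
      (∑ _j : Fin (n + 1), (1 : ℝ)) :=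
    hasSum_sum fun j _ => hasSum_ite_eq (σ j x - v) (1 : ℝ)
  have h2 : (∑ _j : Fin (n + 1), (1 : ℝ)) = (n : ℝ) + 1 := by simp
  rw [h2] at h
  refine h.congr_fun fun y => ?_
  unfold kσ
  refine Finset.sum_congr rfl fun j _ => ?_
  by_cases hj : y = σ j x - v
  · rw [if_pos hj, if_pos (by rw [hj]; abel)]
  · rw [if_neg hj, if_neg fun h' => hj (by rw [← h']; abel)]

theorem pow : S_pow := by
  intro d Q M a σ ha hs hp u
  have ha' : ∀ n, 0 ≤ a n := fun n => (ha n).le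
  refine ⟨fun x y => ?_, fun p hp0 => ?_⟩
  · unfold tA
    exact tsum_nonneg fun k => mul_nonneg (ha' k) (ks_nonneg _ _ _)
  · have e : ∀ x y, tA (fun k x y => a k * kσ (σ k) x y) u x y =
        ∑' k, a k * kσ (σ k) (x + hd (k + 1) u) (y + hd (k + 1) u) := fun x y => rfl
    simp only [e]
    rcases le_total p 1 with h1 | h1
    · exact ⟨_, fun x => pow_small
        (fun k y => kσ (σ k) (x + hd (k + 1) u) (y + hd (k + 1) u)) (fun k => (M k : ℝ) + 1)
        (fun k y => ks_nonneg _ _ _) (fun k => ks_hasSum _ _ _) (fun k y => ks_int _ _ _)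
        a ha' hs p hp0 h1 (hp p hp0)⟩
    · exact ⟨_, fun x => pow_large
        (fun k y => kσ (σ k) (x + hd (k + 1) u) (y + hd (k + 1) u)) (fun k => (M k : ℝ) + 1)
        (fun k y => ks_nonneg _ _ _) (fun k => ks_hasSum _ _ _) a ha' hs p h1⟩

end Pool.Agent.H582.Y987
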